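import Pool.Agent.H90.TC.Fin.Main
import Pool.Agent.H90.SY.Grp

set_option autoImplicit false

/-!
Asymptotic dimension of nonpositively curved triangle complexes (MP_9bf88d_al).

Let `G` be a connected graph with simply connected flag complex. Suppose that all vertex links have
girth at least six (equilateral triangles), or that `G` is properly 3-coloured, every edge lies in a
triangle, and the link condition holds for three angles `θ 0, θ 1, θ 2` with sum at most `π`, one for
each colour (the nonpositively curved triangle complexes of Gersten and Stallings, in particular all
CAT(0) complexes made of copies of one Euclidean or hyperbolic triangle with type preserving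
gluings). Then `G`, locally finite or not, has (asymptotic) Assouad-Nagata dimension at most two
with a universal constant. Hence every finitely generated group which acts on it metrically
properly has asymptotic dimension at most two.
-/

namespace Pool.Agent.Results.MP_9bf88d_al.NonpositiveTriangles

open Pool.H90SY Pool.H90TC

universe u

theorem result :
    (∀ (V : Type u) (G : SimpleGraph V), G.Connected → NPC G →
      ∀ R : ℕ, 1 ≤ R → CoverAt G.dist 2 R (168 * R)) ∧
    (∀ (Γ V : Type u) [Group Γ] [MulAction Γ V] (G : SimpleGraph V) (x0 : V) (S : Set Γ),
      G.Connected → NPC G →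
      (∀ (g : Γ) (v w : V), G.Adj v w → G.Adj (g • v) (g • w)) →
      (∀ r : ℕ, {g : Γ | G.dist x0 (g • x0) ≤ r}.Finite) →
      S.Finite → Subgroup.closure S = ⊤ →
      ∀ R : ℕ, ∃ D : ℕ, CoverAt (cay S).dist 2 R D) := by
  refine ⟨fun V G hc h => npc_cover G hc h, ?_⟩
  intro Γ V _ _ G x0 S hc h hact hprop hS hgen
  exact grp_cover G hact hc x0 S hS hgen hprop 168 (npc_cover G hc h)

end Pool.Agent.Results.MP_9bf88d_al.NonpositiveTriangles
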